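import Pool.Agent.Helper61.EO.J.BC
import Pool.Agent.Helper61.EO.J.BD
import Pool.Agent.Helper61.EO.J.BX
import Pool.Agent.Helper61.EO.J.COMB
import Pool.Agent.Helper61.EO.J.EP
import Pool.Agent.Helper61.EO.J.EXC
import Pool.Agent.Helper61.EO.J.EXD
import Pool.Agent.Helper61.EO.J.FIN
import Pool.Agent.Helper61.EO.J.FM
import Pool.Agent.Helper61.EO.J.FO
import Pool.Agent.Helper61.EO.J.GD
import Pool.Agent.Helper61.EO.J.GV
import Pool.Agent.Helper61.EO.J.GZ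
import Pool.Agent.Helper61.EO.J.HOL
import Pool.Agent.Helper61.EO.J.IND
import Pool.Agent.Helper61.EO.J.KIL
import Pool.Agent.Helper61.EO.J.LOC
import Pool.Agent.Helper61.EO.J.MAIN
import Pool.Agent.Helper61.EO.J.MT
import Pool.Agent.Helper61.EO.J.P1
import Pool.Agent.Helper61.EO.J.PB
import Pool.Agent.Helper61.EO.J.PFW
import Pool.Agent.Helper61.EO.J.PP
import Pool.Agent.Helper61.EO.J.RED1
import Pool.Agent.Helper61.EO.J.RED2
import Pool.Agent.Helper61.EO.J.SLM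
import Pool.Agent.Helper61.EO.J.SPAN
import Pool.Agent.Helper61.EO.J.SPAN0
import Pool.Agent.Helper61.EO.J.T0
import Pool.Agent.Helper61.EO.J.T1
import Pool.Agent.Helper61.EO.J.T10
import Pool.Agent.Helper61.EO.J.T11
import Pool.Agent.Helper61.EO.J.T12
import Pool.Agent.Helper61.EO.J.T2
import Pool.Agent.Helper61.EO.J.T3
import Pool.Agent.Helper61.EO.J.T4
import Pool.Agent.Helper61.EO.J.T5
import Pool.Agent.Helper61.EO.J.T6
import Pool.Agent.Helper61.EO.J.T7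
import Pool.Agent.Helper61.EO.J.T8
import Pool.Agent.Helper61.EO.J.T9
import Pool.Agent.Helper61.EO.J.TR
import Pool.Agent.Helper61.EO.J.TT
import Pool.Agent.Helper61.EO.J.VM
import Pool.Agent.Helper61.EO.J.VZ

/-!
Project EO: assembly of the jobs.
-/

set_option autoImplicit false

namespace Pool.Agent.Helper61.EO

theorem all_MT : S_MT :=
  have hTT := t_TT
  have hEXD := t_EXD
  have hEXC := t_EXC t_PB hEXD
  have hFO := t_FO hTT hEXD
  have hP1 := t_P1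
  have hPFW := t_PFW hP1 hFO hTT
  have hVZ := t_VZ hFO hEXD hTT
  have hPP := t_PP hTT
  t_MT t_FM (t_VM hEXC hEXD) hVZ (t_KIL hTT) (t_IND hP1 hFO hEXD hTT)
    (t_HOL hPFW hFO hEXD hTT) (t_SPAN hPP hTT hEXD hVZ) (t_SPAN0 hPP hTT hEXD hVZ)
    (t_GZ hFO hEXD hTT) (t_GV hFO hEXD hEXC hTT) (t_GD hFO hEXC hTT) t_SLM hTT

theorem all_TR : S_TR :=
  have hTT := t_TT
  have hEXD := t_EXD
  have hT3 := t_T3
  have hT4 := t_T4 hT3 hTT
  have hT5 := t_T5 t_T2 hT3 hT4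
  have hT6 := t_T6
  have hLOC := t_LOC hT3 hTT
  have hT8 := t_T8 hT3 hTT hLOC hT6 hEXD
  have hT11 := t_T11
  t_TR t_T1 t_T2 hT4 hT5 hT6 (t_T7 hT3 hT4 hT5 hT6 hEXD hTT) hT8 (t_T9 hT3 t_T2 hTT hT5)
    (t_T10 t_T1 hT3 hT8 hLOC hTT) hT11 (t_T12 t_PB hT5 hT6 hT11)

theorem all_MAIN : S_MAIN :=
  have hTT := t_TT
  have hEXD := t_EXD
  t_MAIN t_BD t_BX (t_BC t_PB) t_FM (t_VM (t_EXC t_PB hEXD) hEXD) all_MT t_FIN t_COMB t_T0 all_TR
    (t_RED1 t_P1) t_RED2 t_EP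

end Pool.Agent.Helper61.EO
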