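import Mathlib

/-!
# De Rham cohomology of a curve in characteristic `p`, with Frobenius and Verschiebung

Let `k` be an algebraically closed field of characteristic `p` and `K` a function field of one
variable over `k`, the function field of a smooth projective curve `X`. The closed points of `X` are
the valuation rings of `K / k`. The first de Rham cohomology `H¹_dR(X)` is computed with adeles: its
elements are the classes of the pairs `(ω, h)`, where `ω` is a rational differential form and `h`
assigns to every point `P` a rational function `h P`, regular at `P` for almost all `P`, such that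
`ω - d (h P)` is regular at `P` for all `P`; the pairs `(dg, h)` with `h P - g` regular at `P` for
all `P` represent zero. By a theorem of Oda, `H¹_dR(X)` with `F (ω, h) = (0, h ^ p)` and
`V (ω, h) = (C ω, 0)`, where `C` is the Cartier operator, is the Dieudonne module of `Jac(X)[p]`.
-/

set_option autoImplicit false

namespace Pool.Agent.Helper61.EO.Curve

open KaehlerDifferential

noncomputable section

section Curve

variable (k K : Type) [Field k] [Field K] [Algebra k K]

/-- The closed points of the smooth projective curve over `k` with function field `K`: the valuation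
rings of `K` which contain `k`, except `K` itself. -/
def Point : Type := {P : ValuationSubring K // (∀ c : k, algebraMap k K c ∈ P) ∧ P ≠ ⊤}

/-- The derivation `d` from rational functions to rational differential forms. -/
def diff (g : K) : Ω[K⁄k] := D k K g

/-- The rational differential forms which are regular at the point with valuation ring `P`: the sums
of forms `a db` with `a`, `b` in `P`. -/
def regularForms (P : ValuationSubring K) : AddSubgroup (Ω[K⁄k]) :=
  AddSubgroup.closure {ω | ∃ a ∈ P, ∃ b ∈ P, ω = a • diff k K b}

/-- The pairs `(ω, h)` of a rational differential form and a family of rational functions indexed by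
the points. -/
def Pair : Type := Ω[K⁄k] × (Point k K → K)

instance Pair.group : AddCommGroup (Pair k K) :=
  inferInstanceAs (AddCommGroup (Ω[K⁄k] × (Point k K → K)))

instance Pair.module : Module k (Pair k K) :=
  inferInstanceAs (Module k (Ω[K⁄k] × (Point k K → K)))

variable {k K}

/-- The differential form `ω` of a pair `(ω, h)`. -/
def Pair.form (z : Pair k K) : Ω[K⁄k] := z.1

/-- The value `h P` of the family `h` of a pair `(ω, h)`. -/
def Pair.fam (z : Pair k K) (P : Point k K) : K := z.2 P

/-- The cocycles: `ω - d (h P)` is regular at `P` for all points `P`, and `h P` is regular at `P` for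
almost all `P`. -/
def IsCocycle (z : Pair k K) : Prop :=
  (∀ P, z.form - diff k K (z.fam P) ∈ regularForms k K P.1) ∧ {P | z.fam P ∉ P.1}.Finite

/-- The coboundaries: `ω = dg` and `h P - g` is regular at `P` for all points `P`. -/
def IsCoboundary (z : Pair k K) : Prop :=
  ∃ g : K, z.form = diff k K g ∧ ∀ P, z.fam P - g ∈ P.1

theorem diff_add (a b : K) : diff k K (a + b) = diff k K a + diff k K b := map_add _ _ _

theorem diff_zero : diff k K 0 = 0 := map_zero _

theorem diff_smul (c : k) (a : K) : diff k K (c • a) = c • diff k K a := (D k K).map_smul c a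

theorem regularForms_smul {P : ValuationSubring K} {c : K} (hc : c ∈ P) {ω : Ω[K⁄k]}
    (h : ω ∈ regularForms k K P) : c • ω ∈ regularForms k K P := by
  unfold regularForms at *
  induction h using AddSubgroup.closure_induction with
  | mem x hx =>
    obtain ⟨a, ha, b, hb, rfl⟩ := hx
    refine AddSubgroup.subset_closure ⟨c * a, mul_mem hc ha, b, hb, ?_⟩
    rw [smul_smul]
  | zero => rw [smul_zero]; exact zero_mem _
  | add x y _ _ hx hy => rw [smul_add]; exact add_mem hx hy
  | neg x _ hx => rw [smul_neg]; exact neg_mem hx

theorem IsCocycle.add {z w : Pair k K} (hz : IsCocycle z) (hw : IsCocycle w) :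
    IsCocycle (z + w) := by
  refine ⟨fun P => ?_, (hz.2.union hw.2).subset fun P hP => ?_⟩
  · have h : (z + w).form - diff k K ((z + w).fam P) =
        (z.form - diff k K (z.fam P)) + (w.form - diff k K (w.fam P)) := by
      have h1 : (z + w).form = z.form + w.form := rfl
      have h2 : (z + w).fam P = z.fam P + w.fam P := rfl
      rw [h1, h2, diff_add]
      abel
    rw [h]
    exact add_mem (hz.1 P) (hw.1 P)
  · by_contra hc
    rw [Set.mem_union, not_or] at hc
    exact hP (add_mem (not_not.1 hc.1) (not_not.1 hc.2))

theorem IsCocycle.zero : IsCocycle (0 : Pair k K) := by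
  have h : ∀ P : Point k K, (0 : Pair k K).fam P = 0 := fun _ => rfl
  refine ⟨fun P => ?_, ?_⟩
  · have h1 : (0 : Pair k K).form = 0 := rfl
    rw [h1, h, diff_zero, sub_zero]
    exact zero_mem _
  · convert Set.finite_empty
    rw [Set.eq_empty_iff_forall_notMem]
    intro P hP
    exact hP (by rw [h]; exact zero_mem _)

theorem IsCocycle.smul (c : k) {z : Pair k K} (hz : IsCocycle z) : IsCocycle (c • z) := by
  have h2 : ∀ P : Point k K, (c • z).fam P = c • z.fam P := fun _ => rfl
  refine ⟨fun P => ?_, hz.2.subset fun P hP hc => hP ?_⟩
  · have h1 : (c • z).form = c • z.form := rfl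
    rw [h1, h2, diff_smul, ← smul_sub, ← algebraMap_smul K c]
    exact regularForms_smul (P.2.1 c) (hz.1 P)
  · rw [h2, Algebra.smul_def]
    exact mul_mem (P.2.1 c) hc

theorem IsCoboundary.add {z w : Pair k K} (hz : IsCoboundary z) (hw : IsCoboundary w) :
    IsCoboundary (z + w) := by
  obtain ⟨g, hg, hg'⟩ := hz
  obtain ⟨e, he, he'⟩ := hw
  refine ⟨g + e, ?_, fun P => ?_⟩
  · have h1 : (z + w).form = z.form + w.form := rfl
    rw [h1, diff_add, hg, he]
  · have h2 : (z + w).fam P = z.fam P + w.fam P := rfl
    have h3 : z.fam P + w.fam P - (g + e) = (z.fam P - g) + (w.fam P - e) := by ring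
    rw [h2, h3]
    exact add_mem (hg' P) (he' P)

theorem IsCoboundary.zero : IsCoboundary (0 : Pair k K) := by
  refine ⟨0, ?_, fun P => ?_⟩
  · rw [diff_zero]
    rfl
  · have h : (0 : Pair k K).fam P = 0 := rfl
    rw [h, sub_zero]
    exact zero_mem _

theorem IsCoboundary.smul (c : k) {z : Pair k K} (hz : IsCoboundary z) :
    IsCoboundary (c • z) := by
  obtain ⟨g, hg, hg'⟩ := hz
  refine ⟨c • g, ?_, fun P => ?_⟩
  · have h1 : (c • z).form = c • z.form := rfl
    rw [h1, diff_smul, hg]
  · have h2 : (c • z).fam P = c • z.fam P := rfl
    rw [h2, ← smul_sub, Algebra.smul_def]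
    exact mul_mem (P.2.1 c) (hg' P)

variable (k K)

/-- The vector space of cocycles. -/
def cocycles : Submodule k (Pair k K) where
  carrier := {z | IsCocycle z}
  add_mem' := IsCocycle.add
  zero_mem' := IsCocycle.zero
  smul_mem' c _ := IsCocycle.smul c

/-- The vector space of coboundaries. -/
def coboundaries : Submodule k (Pair k K) where
  carrier := {z | IsCoboundary z}
  add_mem' := IsCoboundary.add
  zero_mem' := IsCoboundary.zero
  smul_mem' c _ := IsCoboundary.smul c

/-- The first de Rham cohomology of the curve with function field `K`: cocycles modulo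
coboundaries. -/
def H1dR : Type := cocycles k K ⧸ (coboundaries k K).submoduleOf (cocycles k K)

instance H1dR.group : AddCommGroup (H1dR k K) :=
  inferInstanceAs (AddCommGroup (cocycles k K ⧸ (coboundaries k K).submoduleOf (cocycles k K)))

instance H1dR.module : Module k (H1dR k K) :=
  inferInstanceAs (Module k (cocycles k K ⧸ (coboundaries k K).submoduleOf (cocycles k K)))

variable {k K}

/-- The class of a cocycle. -/
def H1dR.mk (z : Pair k K) (hz : IsCocycle z) : H1dR k K :=
  (Submodule.Quotient.mk (⟨z, hz⟩ : cocycles k K) :
    cocycles k K ⧸ (coboundaries k K).submoduleOf (cocycles k K))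

/-- `η` is the image of `ω` under the Cartier operator: `η = ∑ a i d(g i)` and `ω` is the sum of an
exact form and of `∑ a i ^ p * g i ^ (p - 1) d(g i)` (the inverse Cartier operator). -/
def IsCartier (p : ℕ) (ω η : Ω[K⁄k]) : Prop :=
  ∃ (n : ℕ) (a g : Fin n → K) (b : K), η = ∑ i, a i • diff k K (g i) ∧
    ω = diff k K b + ∑ i, (a i ^ p * g i ^ (p - 1)) • diff k K (g i)

/-- `w = F v`, where `F (ω, h) = (0, h ^ p)`. -/
def IsF (p : ℕ) (v w : H1dR k K) : Prop :=
  ∃ (z z' : Pair k K) (hz : IsCocycle z) (hz' : IsCocycle z'), H1dR.mk z hz = v ∧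
    H1dR.mk z' hz' = w ∧ z'.form = 0 ∧ ∀ P, z'.fam P = z.fam P ^ p

/-- `w = V v`, where `V (ω, h) = (C ω, 0)` and `C` is the Cartier operator. -/
def IsV (p : ℕ) (v w : H1dR k K) : Prop :=
  ∃ (z z' : Pair k K) (hz : IsCocycle z) (hz' : IsCocycle z'), H1dR.mk z hz = v ∧
    H1dR.mk z' hz' = w ∧ (∀ P, z'.fam P = 0) ∧ IsCartier p z.form z'.form

/-- The image `V W` of a subspace. -/
def imV (p : ℕ) (W : Submodule k (H1dR k K)) : Submodule k (H1dR k K) :=
  Submodule.span k {w | ∃ v ∈ W, IsV p v w}

/-- The inverse image `F⁻¹ W` of a subspace. -/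
def preF (p : ℕ) (W : Submodule k (H1dR k K)) : Submodule k (H1dR k K) :=
  Submodule.span k {v | ∃ w ∈ W, IsF p v w}

/-- The subspaces of the canonical filtration: those which arise from `0` and the whole space by
means of `V` and `F⁻¹`. -/
inductive Canonical (p : ℕ) : Submodule k (H1dR k K) → Prop
  | bot : Canonical p ⊥
  | top : Canonical p ⊤
  | im {W : Submodule k (H1dR k K)} : Canonical p W → Canonical p (imV p W)
  | pre {W : Submodule k (H1dR k K)} : Canonical p W → Canonical p (preF p W)

variable (k K)

/-- The pairs `(dim W, dim V W)`, where `W` runs through the canonical filtration; they determine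
the elementary sequence, hence the Ekedahl-Oort type. -/
def elementaryPairs (p : ℕ) : Set (ℕ × ℕ) :=
  {x | ∃ W : Submodule k (H1dR k K), Canonical p W ∧ Module.finrank k W = x.1 ∧
    Module.finrank k (imV p W) = x.2}

/-- An isomorphism of the Dieudonne modules of the two curves. -/
def IsDieudonneIso {k K K' : Type} [Field k] [Field K] [Field K'] [Algebra k K] [Algebra k K']
    (p : ℕ) (Φ : H1dR k K ≃ₗ[k] H1dR k K') : Prop :=
  (∀ v w, IsF p v w ↔ IsF p (Φ v) (Φ w)) ∧ ∀ v w, IsV p v w ↔ IsV p (Φ v) (Φ w)

end Curve

section AS

variable {k : Type} [Field k]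

/-- The multiset of the orders of the poles of a rational function `f` on the projective line: the
poles `c` in `k`, and the pole at infinity if the degree of the numerator is larger than the degree
of the denominator. -/
def poleOrders [DecidableEq k] (f : RatFunc k) : Multiset ℕ :=
  f.denom.roots.dedup.map (fun c => f.denom.rootMultiplicity c) +
    if f.denom.natDegree < f.num.natDegree then {f.num.natDegree - f.denom.natDegree} else 0

/-- `K` is the function field of the curve `y ^ p - y = f (x)`. -/
def IsArtinSchreier (k : Type) [Field k] (K : Type) [Field K] [Algebra k K] (p : ℕ)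
    (f : RatFunc k) : Prop :=
  ∃ x y : K, Transcendental k x ∧ IntermediateField.adjoin k {x, y} = ⊤ ∧
    y ^ p - y = Polynomial.aeval x f.num / Polynomial.aeval x f.denom

end AS

end

end Pool.Agent.Helper61.EO.Curve
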