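import Mathlib

/-!
# De Rham cohomology of a curve in characteristic `p`, with Frobenius and Verschiebung

Let `k` be an algebraically closed field of characteristic `p` and `K` a function field of one
variable over `k`, the function field of a smooth projective curve `X`. The closed points of `X` are
the valuation rings of `K / k`. The first de Rham cohomology `H¹_dR(X)` is computed with adeles: its
elements are the classes of the pairs `(ω, h)`, where `ω` is a rational differential form and `h`
assigns to every point `P` a rational function `h P`, regular at `P` for almost all `P`, such that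
`ω - d (h P)` is regular at `P` for all `P`; the pairs `(dg, h)` with `h P - g` regular at `P` for
all `P` represent zero. By a theorem of Oda, `H¹_dR(X)` with `F (ω, h) = (0, h ^ p)` and
`V (ω, h) = (C ω, 0)`, where `C` is the Cartier operator, is the Dieudonne module of `Jac(X)[p]`.
-/

set_option autoImplicit false

namespace Pool.Agent.Helper61.EO

open KaehlerDifferential

noncomputable section

section Curve

variable (k K : Type) [Field k] [Field K] [Algebra k K]

/-- The closed points of the smooth projective curve over `k` with function field `K`: the valuation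
rings of `K` which contain `k`, except `K` itself. -/
def Pt : Type := {P : ValuationSubring K // (∀ c : k, algebraMap k K c ∈ P) ∧ P ≠ ⊤}

/-- The rational differential forms which are regular at the point with valuation ring `P`: the sums
of forms `a db` with `a`, `b` in `P`. -/
def Reg (P : ValuationSubring K) : AddSubgroup (Ω[K⁄k]) :=
  AddSubgroup.closure {ω | ∃ a ∈ P, ∃ b ∈ P, ω = a • D k K b}

theorem Reg.smul {P : ValuationSubring K} {c : K} (hc : c ∈ P) {ω : Ω[K⁄k]} (h : ω ∈ Reg k K P) :
    c • ω ∈ Reg k K P := by
  unfold Reg at *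
  induction h using AddSubgroup.closure_induction with
  | mem x hx =>
    obtain ⟨a, ha, b, hb, rfl⟩ := hx
    refine AddSubgroup.subset_closure ⟨c * a, mul_mem hc ha, b, hb, ?_⟩
    rw [smul_smul]
  | zero => rw [smul_zero]; exact zero_mem _
  | add x y _ _ hx hy => rw [smul_add]; exact add_mem hx hy
  | neg x _ hx => rw [smul_neg]; exact neg_mem hx

/-- The cocycles: pairs `(ω, h)` such that `ω - d (h P)` is regular at `P` for all points `P`, and
`h P` is regular at `P` for almost all `P`. -/
def Coc : Submodule k (Ω[K⁄k] × (Pt k K → K)) where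
  carrier := {z | (∀ P, z.1 - D k K (z.2 P) ∈ Reg k K P.1) ∧ {P | z.2 P ∉ P.1}.Finite}
  add_mem' := by
    rintro z w ⟨hz, hz'⟩ ⟨hw, hw'⟩
    refine ⟨fun P => ?_, (hz'.union hw').subset fun P hP => ?_⟩
    · have := add_mem (hz P) (hw P)
      simp only [Prod.fst_add, Prod.snd_add, Pi.add_apply, map_add]
      rwa [sub_add_sub_comm] at this
    · by_contra hc
      rw [Set.mem_union, not_or] at hc
      exact hP (add_mem (not_not.1 hc.1) (not_not.1 hc.2))
  zero_mem' := by
    refine ⟨fun P => ?_, ?_⟩
    · simp
    · simp
  smul_mem' := by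
    rintro c z ⟨hz, hz'⟩
    refine ⟨fun P => ?_, hz'.subset fun P hP => ?_⟩
    · have := Reg.smul k K (P.2.1 c) (hz P)
      simp only [Prod.smul_fst, Prod.smul_snd, Pi.smul_apply]
      rwa [algebraMap_smul, smul_sub, ← (D k K).map_smul] at this
    · intro hc
      refine hP ?_
      simp only [Prod.smul_snd, Pi.smul_apply, Algebra.smul_def]
      exact mul_mem (P.2.1 c) hc

/-- The coboundaries: pairs `(dg, h)` such that `h P - g` is regular at `P` for all points `P`. -/
def Cob : Submodule k (Ω[K⁄k] × (Pt k K → K)) where
  carrier := {z | ∃ g : K, z.1 = D k K g ∧ ∀ P, z.2 P - g ∈ P.1}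
  add_mem' := by
    rintro z w ⟨g, hg, hg'⟩ ⟨g', hw, hw'⟩
    refine ⟨g + g', by simp [hg, hw], fun P => ?_⟩
    have := add_mem (hg' P) (hw' P)
    simp only [Prod.snd_add, Pi.add_apply]
    rwa [sub_add_sub_comm] at this
  zero_mem' := ⟨0, by simp, fun P => by simp⟩
  smul_mem' := by
    rintro c z ⟨g, hg, hg'⟩
    refine ⟨c • g, by simp [hg], fun P => ?_⟩
    have := mul_mem (P.2.1 c) (hg' P)
    simp only [Prod.smul_snd, Pi.smul_apply, Algebra.smul_def]
    rwa [mul_sub] at this

/-- The first de Rham cohomology of the curve with function field `K`. -/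
abbrev HdR : Type := Coc k K ⧸ (Cob k K).submoduleOf (Coc k K)

/-- The class of a cocycle. -/
abbrev HdR.mk (z : Coc k K) : HdR k K := Submodule.Quotient.mk z

/-- `η` is the image of `ω` under the Cartier operator: `η = ∑ a i d(g i)` and `ω` is the sum of an
exact form and of `∑ a i ^ p * g i ^ (p - 1) d(g i)` (the inverse Cartier operator). -/
def IsCartier (p : ℕ) (ω η : Ω[K⁄k]) : Prop :=
  ∃ (n : ℕ) (a g : Fin n → K) (b : K), η = ∑ i, a i • D k K (g i) ∧
    ω = D k K b + ∑ i, (a i ^ p * g i ^ (p - 1)) • D k K (g i)

/-- `w = F v`, where `F (ω, h) = (0, h ^ p)`. -/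
def IsF (p : ℕ) (v w : HdR k K) : Prop :=
  ∃ z z' : Coc k K, HdR.mk k K z = v ∧ HdR.mk k K z' = w ∧ z'.1.1 = 0 ∧
    ∀ P, z'.1.2 P = z.1.2 P ^ p

/-- `w = V v`, where `V (ω, h) = (C ω, 0)` and `C` is the Cartier operator. -/
def IsV (p : ℕ) (v w : HdR k K) : Prop :=
  ∃ z z' : Coc k K, HdR.mk k K z = v ∧ HdR.mk k K z' = w ∧ z'.1.2 = 0 ∧
    IsCartier k K p z.1.1 z'.1.1

/-- The image `V W` of a subspace. -/
def imV (p : ℕ) (W : Submodule k (HdR k K)) : Submodule k (HdR k K) :=
  Submodule.span k {w | ∃ v ∈ W, IsV k K p v w}

/-- The inverse image `F⁻¹ W` of a subspace. -/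
def preF (p : ℕ) (W : Submodule k (HdR k K)) : Submodule k (HdR k K) :=
  Submodule.span k {v | ∃ w ∈ W, IsF k K p v w}

/-- The subspaces of the canonical filtration: those which arise from `0` by means of `V` and
`F⁻¹`. -/
inductive Canonical (p : ℕ) : Submodule k (HdR k K) → Prop
  | bot : Canonical p ⊥
  | top : Canonical p ⊤
  | im {W : Submodule k (HdR k K)} : Canonical p W → Canonical p (imV k K p W)
  | pre {W : Submodule k (HdR k K)} : Canonical p W → Canonical p (preF k K p W)

/-- The pairs `(dim W, dim V W)`, where `W` runs through the canonical filtration; they determine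
the elementary sequence. -/
def elementaryPairs (p : ℕ) : Set (ℕ × ℕ) :=
  {x | ∃ W, Canonical k K p W ∧ Module.finrank k W = x.1 ∧
    Module.finrank k (imV k K p W) = x.2}

end Curve

section AS

variable {k : Type} [Field k]

/-- The multiset of the orders of the poles of a rational function `f` on the projective line: the
poles `c` in `k`, and the pole at infinity if the degree of the numerator is larger than the degree
of the denominator. -/
def poleOrders [DecidableEq k] (f : RatFunc k) : Multiset ℕ :=
  f.denom.roots.dedup.map (fun c => f.denom.rootMultiplicity c) +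
    if f.denom.natDegree < f.num.natDegree then {f.num.natDegree - f.denom.natDegree} else 0

/-- `K` is the function field of the curve `y ^ p - y = f (x)`. -/
def IsArtinSchreier (k : Type) [Field k] (K : Type) [Field K] [Algebra k K] (p : ℕ)
    (f : RatFunc k) : Prop :=
  ∃ x y : K, Transcendental k x ∧ IntermediateField.adjoin k {x, y} = ⊤ ∧
    y ^ p - y = Polynomial.aeval x f.num / Polynomial.aeval x f.denom

end AS

/-- The statement of the theorem: Artin-Schreier curves with the same pole orders, all dividing
`p - 1`, have isomorphic Dieudonne modules and the same elementary sequences. -/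
def S_MAIN : Prop :=
  ∀ (p : ℕ) (_ : p.Prime) (k : Type) (_ : Field k) (_ : DecidableEq k) (_ : IsAlgClosed k)
    (_ : CharP k p)
    (K K' : Type) (_ : Field K) (_ : Field K') (_ : Algebra k K) (_ : Algebra k K')
    (f f' : RatFunc k), IsArtinSchreier k K p f → IsArtinSchreier k K' p f' →
    poleOrders f ≠ 0 → (∀ d ∈ poleOrders f, d ∣ p - 1) → poleOrders f' = poleOrders f →
    (∃ Φ : HdR k K ≃ₗ[k] HdR k K', (∀ v w, IsF k K p v w ↔ IsF k K' p (Φ v) (Φ w)) ∧
      ∀ v w, IsV k K p v w ↔ IsV k K' p (Φ v) (Φ w)) ∧
    elementaryPairs k K p = elementaryPairs k K' p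

end

end Pool.Agent.Helper61.EO
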