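import Pool.Agent.Helper61.EO.Stm

/-!
Project EO: dimension of a module with a basis over `k[λ] / λ ^ n`.
-/

set_option autoImplicit false

namespace Pool.Agent.Helper61.EO

open PowerSeries

noncomputable section

/-- truncated power series with given coefficients -/
def trp {k : Type} [Field k] {n : ℕ} (c : Fin n → k) : k⟦X⟧ :=
  mk fun i => if h : i < n then c ⟨i, h⟩ else 0

theorem coeff_trp {k : Type} [Field k] {n : ℕ} (c : Fin n → k) (i : Fin n) :
    coeff (i : ℕ) (trp c) = c i := by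
  rw [trp, coeff_mk, dif_pos i.2]

theorem trp_add {k : Type} [Field k] {n : ℕ} (c e : Fin n → k) :
    trp (c + e) = trp c + trp e := by
  ext i
  simp only [trp, coeff_mk, map_add]
  split <;> simp

theorem trp_smul {k : Type} [Field k] {n : ℕ} (a : k) (c : Fin n → k) :
    trp (a • c) = (C a : k⟦X⟧) * trp c := by
  ext i
  rw [coeff_C_mul]
  simp only [trp, coeff_mk]
  split <;> simp

/-- the comparison map -/
def trl {k : Type} [Field k] {M : Type} [AddCommGroup M] [Module (k⟦X⟧) M] [Module k M]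
    (hs : ∀ (c : k) (m : M), c • m = (C c : k⟦X⟧) • m) (n : ℕ) {ι : Type} [Fintype ι]
    (v : ι → M) : (ι → Fin n → k) →ₗ[k] M where
  toFun c := ∑ b, trp (c b) • v b
  map_add' c e := by
    rw [← Finset.sum_add_distrib]
    refine Finset.sum_congr rfl fun b _ => ?_
    rw [Pi.add_apply, trp_add, add_smul]
  map_smul' a c := by
    rw [RingHom.id_apply, Finset.smul_sum]
    refine Finset.sum_congr rfl fun b _ => ?_
    rw [Pi.smul_apply, trp_smul, mul_smul, hs]

theorem IsB.equiv {k : Type} [Field k] {M : Type} [AddCommGroup M] [Module (k⟦X⟧) M] [Module k M]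
    (hs : ∀ (c : k) (m : M), c • m = (C c : k⟦X⟧) • m) {n : ℕ} {ι : Type} [Fintype ι]
    {v : ι → M} (h : IsB k n v) : Nonempty ((ι → Fin n → k) ≃ₗ[k] M) := by
  refine ⟨LinearEquiv.ofBijective (trl hs n v) ⟨?_, ?_⟩⟩
  · rw [← LinearMap.ker_eq_bot, LinearMap.ker_eq_bot']
    intro c hc
    have h1 := (h.2 fun b => trp (c b)).1 hc
    funext b a
    rw [← coeff_trp (c b) a]
    exact (X_pow_dvd_iff.1 (h1 b)) a a.2
  · intro m
    obtain ⟨s, rfl⟩ := h.1 m
    refine ⟨fun b a => coeff (a : ℕ) (s b), ?_⟩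
    rw [← sub_eq_zero]
    change ∑ b, trp (fun a : Fin n => coeff (a : ℕ) (s b)) • v b - _ = 0
    rw [← Finset.sum_sub_distrib]
    simp only [← sub_smul]
    rw [h.2]
    intro b
    rw [X_pow_dvd_iff]
    intro i hi
    rw [map_sub, coeff_trp (fun a : Fin n => coeff (a : ℕ) (s b)) ⟨i, hi⟩]
    exact sub_self _

theorem IsB.finrank {k : Type} [Field k] {M : Type} [AddCommGroup M] [Module (k⟦X⟧) M]
    [Module k M] (hs : ∀ (c : k) (m : M), c • m = (C c : k⟦X⟧) • m) {n : ℕ} {ι : Type} [Fintype ι]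
    {v : ι → M} (h : IsB k n v) :
    Module.Finite k M ∧ Module.finrank k M = n * Fintype.card ι := by
  obtain ⟨e⟩ := h.equiv hs
  refine ⟨Module.Finite.equiv e, ?_⟩
  rw [← e.finrank_eq, Module.finrank_pi_fintype]
  simp [mul_comm]

theorem card_IB {k : Type} (J : Finset (Option k)) (d : Option k → ℕ) (hJ : none ∈ J)
    (hd : 1 ≤ d none) : Fintype.card (IB J d) = ∑ j ∈ J, (d j + 1) - 2 := by
  classical
  rw [Fintype.card_coe, IB, Finset.card_sigma, ← Finset.add_sum_erase J _ hJ,
    ← Finset.add_sum_erase J (fun j => d j + 1) hJ]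
  have key : ∀ (A : ℕ) (F : Option k → ℕ), (∀ j ∈ J.erase none, F j = d j + 1) →
      A = d none - 1 → A + ∑ x ∈ J.erase none, F x =
        d none + 1 + ∑ x ∈ J.erase none, (d x + 1) - 2 := by
    intro A F hF hA
    rw [Finset.sum_congr rfl hF, hA]
    omega
  refine key _ _ (fun j hj => ?_) ?_
  · cases j with
    | none => exact absurd rfl (Finset.ne_of_mem_erase hj)
    | some c => simp
  · simp

end

end Pool.Agent.Helper61.EO
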