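import Pool.Agent.Helper61.EO.ALL
import Pool.Agent.Helper61.EO.Dim

/-!
Project EO: `F` and `V` are maps, and the dimension of `H¹_dR`.
-/

set_option autoImplicit false

namespace Pool.Agent.Helper61.EO

open PowerSeries

noncomputable section

theorem all_MAIN' (p : ℕ) (hp : p.Prime) (k : Type) [i1 : Field k] [i2 : DecidableEq k]
    [i3 : IsAlgClosed k] [i4 : CharP k p] (K K' : Type) [i5 : Field K] [i6 : Field K']
    [i7 : Algebra k K] [i8 : Algebra k K']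
    (f f' : RatFunc k) (hK : IsArtinSchreier k K p f) (hK' : IsArtinSchreier k K' p f')
    (h0 : poleOrders f ≠ 0) (hd : ∀ d ∈ poleOrders f, d ∣ p - 1)
    (hff' : poleOrders f' = poleOrders f) :
    (∃ Φ : HdR k K ≃ₗ[k] HdR k K', (∀ v w, IsF k K p v w ↔ IsF k K' p (Φ v) (Φ w)) ∧
      ∀ v w, IsV k K p v w ↔ IsV k K' p (Φ v) (Φ w)) ∧
    elementaryPairs k K p = elementaryPairs k K' p :=
  all_MAIN p hp k i1 i2 i3 i4 K K' i5 i6 i7 i8 f f' hK hK' h0 hd hff'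

theorem all_INV (p : ℕ) (hp : p.Prime) (k : Type) [Field k] [DecidableEq k] [IsAlgClosed k]
    [CharP k p] (K : Type) [Field K] [Algebra k K] (f : RatFunc k)
    (hK : IsArtinSchreier k K p f) (h0 : poleOrders f ≠ 0) (hd : ∀ d ∈ poleOrders f, d ∣ p - 1) :
    (∀ v : HdR k K, ∃! w, IsF k K p v w) ∧ (∀ v : HdR k K, ∃! w, IsV k K p v w) ∧
    Module.Finite k (HdR k K) ∧
    Module.finrank k (HdR k K) = (p - 1) * (((poleOrders f).map fun d => d + 1).sum - 2) := by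
  haveI : Fact p.Prime := ⟨hp⟩
  obtain ⟨B⟩ := MAIN.base t_BD t_BX (t_BC t_PB) p k hp
  obtain ⟨f1, J, d, hK1, hP, hJ⟩ := MAIN.red (t_RED1 t_P1) t_RED2 p k B K f hK h0 hd
  obtain ⟨F, hF⟩ := t_FM p k B f1 J d hP
  obtain ⟨V, hV⟩ := t_VM (t_EXC t_PB t_EXD) t_EXD p k B f1 J d hP
  obtain ⟨w, hw, -, -⟩ := all_MT p k B f1 J d hP F V hF hV
  obtain ⟨ι, y, hι⟩ := t_T0 p k K f1 hK1
  obtain ⟨Θ, hΘF, hΘV⟩ := all_TR p k B f1 J d hP K ι y hι F V hF hV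
  obtain ⟨h1, h2⟩ := hw.finrank (fun _ _ => rfl)
  refine ⟨fun v => ?_, fun v => ?_, Module.Finite.equiv Θ, ?_⟩
  · obtain ⟨v, rfl⟩ := Θ.surjective v
    refine ⟨Θ (F v), (hΘF _ _).2 rfl, fun w hw => ?_⟩
    obtain ⟨w, rfl⟩ := Θ.surjective w
    rw [(hΘF _ _).1 hw]
  · obtain ⟨v, rfl⟩ := Θ.surjective v
    refine ⟨Θ (V v), (hΘV _ _).2 rfl, fun w hw => ?_⟩
    obtain ⟨w, rfl⟩ := Θ.surjective w
    rw [(hΘV _ _).1 hw]
  · rw [← Θ.finrank_eq, h2, card_IB J d hP.inf (hP.pos _ hP.inf), ← hJ, Multiset.map_map]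
    rfl

end

end Pool.Agent.Helper61.EO
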