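import Mathlib

/-!
Project EO: the twisted de Rham complex of an Artin-Schreier curve (model of `H¹_dR`).
-/

set_option autoImplicit false

namespace Pool.Agent.Helper61.EO

open PowerSeries

noncomputable section

/-- Derivation, Laurent expansions and Cartier operator on `k(x)`. -/
structure Base (p : ℕ) (k : Type) [Field k] where
  D : Derivation k (RatFunc k) (RatFunc k)
  D_X : D RatFunc.X = 1
  ex : Option k → (RatFunc k →+* LaurentSeries k)
  ex_C : ∀ (j : Option k) (c : k), ex j (RatFunc.C c) = HahnSeries.C c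
  ex_some : ∀ c : k, ex (some c) RatFunc.X = HahnSeries.C c + HahnSeries.single 1 1
  ex_none : ex none RatFunc.X = HahnSeries.single (-1) 1
  car : RatFunc k →+ RatFunc k
  car_pow : ∀ a b : RatFunc k, car (a ^ p * b) = a * car b
  car_D : ∀ b : RatFunc k, car (D b) = 0
  car_log : ∀ b : RatFunc k, car (b ^ (p - 1) * D b) = D b

/-- local parameters -/
def tt {k : Type} [Field k] : Option k → RatFunc k
  | some c => RatFunc.X - RatFunc.C c
  | none => RatFunc.X⁻¹

/-- `dx / dt` -/
def dxdt {k : Type} [Field k] : Option k → LaurentSeries k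
  | some _ => 1
  | none => - HahnSeries.single (-2) 1

section

variable {p : ℕ} {k : Type} [Field k] (B : Base p k)

/-- the Laurent expansion (in terms of `dt`) of the form `φ dx` -/
def exW (j : Option k) (φ : RatFunc k) : LaurentSeries k := B.ex j φ * dxdt j

/-- the poles of `f` are the elements of `J`, with orders `d j` dividing `p - 1` -/
structure PoleData (f : RatFunc k) (J : Finset (Option k)) (d : Option k → ℕ) : Prop where
  inf : none ∈ J
  pos : ∀ j ∈ J, 1 ≤ d j
  dvd : ∀ j ∈ J, d j ∣ p - 1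
  lead : ∀ j ∈ J, (B.ex j f).coeff (-(d j : ℤ)) ≠ 0
  low : ∀ j ∈ J, ∀ m : ℤ, m < -(d j : ℤ) → (B.ex j f).coeff m = 0
  reg : ∀ j, j ∉ J → ∀ m : ℤ, m < 0 → (B.ex j f).coeff m = 0

/-- `(p - 1) / d j` -/
def EE (p : ℕ) (d : Option k → ℕ) (j : Option k) : ℕ := (p - 1) / d j

/-- all coefficients (below `p`) are regular outside `J` -/
def inA (J : Finset (Option k)) (g : (RatFunc k)⟦X⟧) : Prop :=
  ∀ i < p, ∀ j, j ∉ J → ∀ m : ℤ, m < 0 → (B.ex j (coeff i g)).coeff m = 0

/-- the functions which are regular at the point over `j ∈ J` -/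
def inO (d : Option k → ℕ) (j : Option k) (h : (RatFunc k)⟦X⟧) : Prop :=
  ∀ i < p, ∀ m : ℤ, m < (d j : ℤ) - (i / EE p d j : ℕ) → (B.ex j (coeff i h)).coeff m = 0

/-- the forms `w dx` which are regular at the point over `j ∈ J` -/
def inW (d : Option k → ℕ) (j : Option k) (w : (RatFunc k)⟦X⟧) : Prop :=
  ∀ i < p, ∀ m : ℤ, m < -(((i + EE p d j - 1) / EE p d j : ℕ) : ℤ) →
    (exW B j (coeff i w)).coeff m = 0

/-- the twisted derivation `∂ - λ f'`; here `λ = X` -/
def nab (f : RatFunc k) (h : (RatFunc k)⟦X⟧) : (RatFunc k)⟦X⟧ :=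
  mk (fun i => B.D (coeff i h)) - X * (C (B.D f) * h)

/-- the truncated exponential series of `λ f` -/
def expo (p : ℕ) (f : RatFunc k) : (RatFunc k)⟦X⟧ :=
  mk fun s => if s < p then ((s.factorial : ℕ) : RatFunc k)⁻¹ * f ^ s else 0

/-- scalars -/
theorem coeff_sm (s : k⟦X⟧) (w : (RatFunc k)⟦X⟧) (i : ℕ) :
    coeff i (s • w) = ∑ x ∈ Finset.HasAntidiagonal.antidiagonal i,
      RatFunc.C (coeff x.1 s) * coeff x.2 w := by
  rw [Algebra.smul_def, coeff_mul]
  refine Finset.sum_congr rfl fun x _ => ?_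
  congr 1

theorem ex_sm (j : Option k) (s : k⟦X⟧) (w : (RatFunc k)⟦X⟧) (i : ℕ) (m : ℤ)
    (h : ∀ u ≤ i, (B.ex j (coeff u w)).coeff m = 0) : (B.ex j (coeff i (s • w))).coeff m = 0 := by
  rw [coeff_sm, map_sum, HahnSeries.coeff_sum]
  refine Finset.sum_eq_zero fun x hx => ?_
  rw [map_mul, B.ex_C]
  rw [HahnSeries.C_mul_eq_smul, HahnSeries.coeff_smul, h x.2 ?_, smul_zero]
  have := Finset.HasAntidiagonal.mem_antidiagonal.1 hx
  omega

theorem exW_sm (j : Option k) (s : k⟦X⟧) (w : (RatFunc k)⟦X⟧) (i : ℕ) (m : ℤ)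
    (h : ∀ u ≤ i, (exW B j (coeff u w)).coeff m = 0) : (exW B j (coeff i (s • w))).coeff m = 0 := by
  unfold exW at *
  rw [coeff_sm, map_sum, Finset.sum_mul, HahnSeries.coeff_sum]
  refine Finset.sum_eq_zero fun x hx => ?_
  rw [map_mul, B.ex_C, mul_assoc]
  rw [HahnSeries.C_mul_eq_smul, HahnSeries.coeff_smul, h x.2 ?_, smul_zero]
  have := Finset.HasAntidiagonal.mem_antidiagonal.1 hx
  omega

theorem inA.sm {J : Finset (Option k)} {g : (RatFunc k)⟦X⟧} (h : inA B J g) (s : k⟦X⟧) :
    inA B J (s • g) := fun i hi j hj m hm => ex_sm B j s g i m fun u hu => h u (by omega) j hj m hm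

theorem inO.sm {d : Option k → ℕ} {j : Option k} {g : (RatFunc k)⟦X⟧} (h : inO B d j g)
    (s : k⟦X⟧) : inO B d j (s • g) := fun i hi m hm => ex_sm B j s g i m fun u hu =>
  h u (by omega) m (by
    have : u / EE p d j ≤ i / EE p d j := Nat.div_le_div_right hu
    omega)

theorem inW.sm {d : Option k → ℕ} {j : Option k} {g : (RatFunc k)⟦X⟧} (h : inW B d j g)
    (s : k⟦X⟧) : inW B d j (s • g) := fun i hi m hm => exW_sm B j s g i m fun u hu =>
  h u (by omega) m (by
    have : (u + EE p d j - 1) / EE p d j ≤ (i + EE p d j - 1) / EE p d j :=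
      Nat.div_le_div_right (by omega)
    omega)

theorem inA.add {J : Finset (Option k)} {g h : (RatFunc k)⟦X⟧} (hg : inA B J g) (hh : inA B J h) :
    inA B J (g + h) := fun i hi j hj m hm => by
  rw [map_add, map_add, HahnSeries.coeff_add, hg i hi j hj m hm, hh i hi j hj m hm, add_zero]

theorem inO.add {d : Option k → ℕ} {j : Option k} {g h : (RatFunc k)⟦X⟧} (hg : inO B d j g)
    (hh : inO B d j h) : inO B d j (g + h) := fun i hi m hm => by
  rw [map_add, map_add, HahnSeries.coeff_add, hg i hi m hm, hh i hi m hm, add_zero]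

theorem inW.add {d : Option k → ℕ} {j : Option k} {g h : (RatFunc k)⟦X⟧} (hg : inW B d j g)
    (hh : inW B d j h) : inW B d j (g + h) := fun i hi m hm => by
  have h1 := hg i hi m hm
  have h2 := hh i hi m hm
  unfold exW at *
  rw [map_add, map_add, add_mul, HahnSeries.coeff_add, h1, h2, add_zero]

theorem inA.zero {J : Finset (Option k)} : inA B J 0 := fun i hi j hj m hm => by simp
theorem inO.zero {d : Option k → ℕ} {j : Option k} : inO B d j 0 := fun i hi m hm => by simp
theorem inW.zero {d : Option k → ℕ} {j : Option k} : inW B d j 0 := fun i hi m hm => by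
  simp [exW]

theorem nab_add (f : RatFunc k) (g h : (RatFunc k)⟦X⟧) :
    nab B f (g + h) = nab B f g + nab B f h := by
  unfold nab
  have : (mk fun i => B.D (coeff i (g + h))) =
      (mk fun i => B.D (coeff i g)) + mk fun i => B.D (coeff i h) := by
    ext i
    simp
  rw [this]
  ring

theorem nab_zero (f : RatFunc k) : nab B f 0 = 0 := by
  have := nab_add B f 0 0
  simpa using this

theorem nab_sm (f : RatFunc k) (s : k⟦X⟧) (h : (RatFunc k)⟦X⟧) :
    nab B f (s • h) = s • nab B f h := by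
  unfold nab
  have : (mk fun i => B.D (coeff i (s • h))) = s • mk fun i => B.D (coeff i h) := by
    ext i
    rw [coeff_mk, coeff_sm, coeff_sm, map_sum]
    refine Finset.sum_congr rfl fun x _ => ?_
    rw [coeff_mk, ← RatFunc.algebraMap_eq_C, ← Algebra.smul_def, ← Algebra.smul_def,
      Derivation.map_smul]
  rw [this, smul_sub]
  congr 1
  rw [Algebra.smul_def, Algebra.smul_def]
  ring

variable (f : RatFunc k) (J : Finset (Option k)) (d : Option k → ℕ)

/-- cocycles of the model -/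
def Zm : Submodule (k⟦X⟧) ((RatFunc k)⟦X⟧ × (Option k → (RatFunc k)⟦X⟧)) where
  carrier := {z | inA B J z.1 ∧ ∀ j ∈ J, inW B d j (z.1 - nab B f (z.2 j))}
  add_mem' := by
    rintro z w ⟨hz, hz'⟩ ⟨hw, hw'⟩
    refine ⟨hz.add B hw, fun j hj => ?_⟩
    have := (hz' j hj).add B (hw' j hj)
    simp only [Prod.fst_add, Prod.snd_add, Pi.add_apply, nab_add]
    rwa [sub_add_sub_comm] at this
  zero_mem' := ⟨inA.zero B, fun j _ => by
    simp only [Prod.fst_zero, Prod.snd_zero, Pi.zero_apply, nab_zero, sub_zero]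
    exact inW.zero B⟩
  smul_mem' := by
    rintro s z ⟨hz, hz'⟩
    refine ⟨hz.sm B s, fun j hj => ?_⟩
    have := (hz' j hj).sm B s
    simp only [Prod.smul_fst, Prod.smul_snd, Pi.smul_apply, nab_sm]
    rwa [smul_sub] at this

/-- coboundaries of the model -/
def Bm : Submodule (k⟦X⟧) ((RatFunc k)⟦X⟧ × (Option k → (RatFunc k)⟦X⟧)) where
  carrier := {z | ∃ g, inA B J g ∧ (∀ i < p, coeff i z.1 = coeff i (nab B f g)) ∧
    ∀ j ∈ J, inO B d j (z.2 j - g)}
  add_mem' := by
    rintro z w ⟨g, hg, hz, hz'⟩ ⟨h, hh, hw, hw'⟩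
    refine ⟨g + h, hg.add B hh, fun i hi => ?_, fun j hj => ?_⟩
    · rw [nab_add, Prod.fst_add, map_add, map_add, hz i hi, hw i hi]
    · have := (hz' j hj).add B (hw' j hj)
      simp only [Prod.snd_add, Pi.add_apply]
      rwa [sub_add_sub_comm] at this
  zero_mem' := ⟨0, inA.zero B, fun i _ => by rw [nab_zero]; rfl, fun j _ => by
    simp only [Prod.snd_zero, Pi.zero_apply, sub_zero]
    exact inO.zero B⟩
  smul_mem' := by
    rintro s z ⟨g, hg, hz, hz'⟩
    refine ⟨s • g, hg.sm B s, fun i hi => ?_, fun j hj => ?_⟩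
    · rw [nab_sm, Prod.smul_fst, coeff_sm, coeff_sm]
      refine Finset.sum_congr rfl fun x hx => ?_
      rw [hz x.2 (by have := Finset.HasAntidiagonal.mem_antidiagonal.1 hx; omega)]
    · have := (hz' j hj).sm B s
      simp only [Prod.smul_snd, Pi.smul_apply]
      rwa [smul_sub] at this

/-- the model of `H¹_dR` -/
abbrev Hm : Type := Zm B f J d ⧸ (Bm B f J d).submoduleOf (Zm B f J d)

instance Hm.modk : Module k (Hm B f J d) :=
  Module.compHom (Hm B f J d) (PowerSeries.C : k →+* k⟦X⟧)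

theorem Hm.smulk (c : k) (m : Hm B f J d) : c • m = (PowerSeries.C c : k⟦X⟧) • m := rfl

/-- the class of a cocycle -/
abbrev Hm.cl (z : Zm B f J d) : Hm B f J d := Submodule.Quotient.mk z

end

end

end Pool.Agent.Helper61.EO
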