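import Pool.Agent.Helper61.EO.Defs
import Pool.Agent.Helper61.EO.Mod

/-!
Project EO: statements.
-/

set_option autoImplicit false

namespace Pool.Agent.Helper61.EO

open PowerSeries

noncomputable section

/-! ### the rational function field -/

/-- derivation -/
def S_BD : Prop := ∀ (k : Type) [Field k],
  ∃ D : Derivation k (RatFunc k) (RatFunc k), D RatFunc.X = 1

/-- expansions -/
def S_BX : Prop := ∀ (k : Type) [Field k],
  ∃ ex : Option k → (RatFunc k →+* LaurentSeries k),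
    (∀ (j : Option k) (c : k), ex j (RatFunc.C c) = HahnSeries.C c) ∧
    (∀ c : k, ex (some c) RatFunc.X = HahnSeries.C c + HahnSeries.single 1 1) ∧
    ex none RatFunc.X = HahnSeries.single (-1) 1

/-- Cartier operator -/
def S_BC : Prop := ∀ (p : ℕ) (k : Type) [Field k] [IsAlgClosed k] [CharP k p], p.Prime →
  ∀ D : Derivation k (RatFunc k) (RatFunc k), D RatFunc.X = 1 →
  ∃ car : RatFunc k →+ RatFunc k, (∀ a b : RatFunc k, car (a ^ p * b) = a * car b) ∧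
    (∀ b : RatFunc k, car (D b) = 0) ∧ ∀ b : RatFunc k, car (b ^ (p - 1) * D b) = D b

/-- every element is `∑ a i ^ p * b ^ i`, for `b` with `D b ≠ 0` of degree one -/
def S_PB : Prop := ∀ (p : ℕ) (k : Type) [Field k] [IsAlgClosed k] [CharP k p], p.Prime →
  ∀ (j : Option k) (φ : RatFunc k), ∃ a : ℕ → RatFunc k,
    φ = ∑ i ∈ Finset.range p, a i ^ p * tt j ^ i

def S_EXD : Prop := ∀ (p : ℕ) (k : Type) [Field k] (B : Base p k) (j : Option k)
  (φ : RatFunc k) (m : ℤ),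
  (exW B j (B.D φ)).coeff m = ((m + 1 : ℤ) : k) * (B.ex j φ).coeff (m + 1)

def S_EXC : Prop := ∀ (p : ℕ) (k : Type) [Field k] [IsAlgClosed k] [CharP k p], p.Prime →
  ∀ (B : Base p k) (j : Option k) (φ : RatFunc k) (m : ℤ),
  ((exW B j (B.car φ)).coeff m) ^ p = (exW B j φ).coeff (p * (m + 1) - 1)

/-- regular everywhere implies constant -/
def S_P1 : Prop := ∀ (p : ℕ) (k : Type) [Field k] [IsAlgClosed k] (B : Base p k) (φ : RatFunc k),
  (∀ (j : Option k) (m : ℤ), m < 0 → (B.ex j φ).coeff m = 0) → ∃ c : k, φ = RatFunc.C c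

/-- the local parameters -/
def S_TT : Prop := ∀ (p : ℕ) (k : Type) [Field k] (B : Base p k),
  (∀ j : Option k, B.ex j (tt j) = HahnSeries.single 1 1) ∧
  (∀ (j j' : Option k), j' ≠ j → ∀ m : ℤ, m < 0 → (B.ex j' (tt j)⁻¹).coeff m = 0) ∧
  ∀ c : k, (B.ex none (tt (some c))⁻¹).coeff 0 = 0

/-- the form `t⁻ⁿ dt` -/
def fo {p : ℕ} {k : Type} [Field k] (B : Base p k) (j : Option k) (n : ℕ) : RatFunc k :=
  ((tt j)⁻¹) ^ n * B.D (tt j)

def S_FO : Prop := ∀ (p : ℕ) (k : Type) [Field k] (B : Base p k),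
  (∀ (j : Option k) (n : ℕ), exW B j (fo B j n) = HahnSeries.single (-(n : ℤ)) 1) ∧
  (∀ (j j' : Option k) (n : ℕ), 2 ≤ n → j' ≠ j → ∀ m : ℤ, m < 0 →
    (exW B j' (fo B j n)).coeff m = 0) ∧
  (∀ (c : k) (j' : Option k), j' ≠ some c → j' ≠ none → ∀ m : ℤ, m < 0 →
    (exW B j' (fo B (some c) 1)).coeff m = 0) ∧
  (∀ (c : k) (m : ℤ), m < -1 → (exW B none (fo B (some c) 1)).coeff m = 0)

/-- functions with given principal parts -/
def S_PP : Prop := ∀ (p : ℕ) (k : Type) [Field k] (B : Base p k) (J : Finset (Option k))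
  (c : Option k → ℕ → k) (N : ℕ),
  (∀ j, j ∉ J → ∀ m : ℤ, m < 0 → (B.ex j (∑ j' ∈ J, ∑ n ∈ Finset.range N,
    RatFunc.C (c j' n) * ((tt j')⁻¹) ^ (n + 1))).coeff m = 0) ∧
  ∀ j ∈ J, ∀ n : ℕ, (B.ex j (∑ j' ∈ J, ∑ n ∈ Finset.range N,
    RatFunc.C (c j' n) * ((tt j')⁻¹) ^ (n + 1))).coeff (-((n : ℤ) + 1)) =
      if n < N then c j n else 0

/-- partial fractions of forms -/
def S_PFW : Prop := ∀ (p : ℕ) (k : Type) [Field k] [IsAlgClosed k] (B : Base p k)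
  (J : Finset (Option k)), none ∈ J → ∀ φ : RatFunc k,
  (∀ j, j ∉ J → ∀ m : ℤ, m < 0 → (B.ex j φ).coeff m = 0) → ∀ N : ℕ,
  (∀ j ∈ J, ∀ m : ℤ, m ≤ -(N : ℤ) → (exW B j φ).coeff m = 0) →
  ∃ r : Option k → k, φ = ∑ j ∈ J, ∑ n ∈ Finset.Ico 2 N,
      RatFunc.C ((exW B j φ).coeff (-(n : ℤ))) * fo B j n +
    ∑ j ∈ J with j ≠ none, RatFunc.C (r j) * fo B j 1

/-! ### the model -/

/-- index set of the basis -/
def IB {k : Type} (J : Finset (Option k)) (d : Option k → ℕ) : Finset (Σ _ : Option k, ℕ) :=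
  J.sigma fun j => match j with
    | none => Finset.Ico 1 (d none)
    | some c => Finset.range (d (some c) + 1)

/-- the exponents -/
def ee {k : Type} (p : ℕ) (d : Option k → ℕ) (b : Σ _ : Option k, ℕ) : ℕ := EE p d b.1 * b.2

section

variable {p : ℕ} {k : Type} [Field k] (B : Base p k)

/-- the principal part (terms `t⁻ⁿ dt`, `2 ≤ n < N`) of the form `φ dx` at `j` -/
def pp (j : Option k) (N : ℕ) (φ : RatFunc k) : RatFunc k :=
  ∑ n ∈ Finset.Ico 2 N, RatFunc.C ((exW B j φ).coeff (-(n : ℤ))) * fo B j n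

open scoped Classical in
/-- the family which is `h` at `j` and `0` elsewhere -/
def at' (j : Option k) (h : (RatFunc k)⟦X⟧) : Option k → (RatFunc k)⟦X⟧ :=
  fun j' => if j' = j then h else 0

/-- the basis -/
def vb (f : RatFunc k) (d : Option k → ℕ) (b : Σ _ : Option k, ℕ) :
    (RatFunc k)⟦X⟧ × (Option k → (RatFunc k)⟦X⟧) :=
  if b.2 < d b.1 then
    (-(X * C (pp B b.1 (d b.1 + 2) (tt b.1 ^ b.2 * B.D f))), at' b.1 (C (tt b.1 ^ b.2)))
  else (X * C (fo B b.1 1), 0)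

/-- `λ ^ e` times this element is `F (vb b)` -/
def gb (f : RatFunc k) (d : Option k → ℕ) (b : Σ _ : Option k, ℕ) :
    (RatFunc k)⟦X⟧ × (Option k → (RatFunc k)⟦X⟧) :=
  (X ^ (p - ee p d b) *
      C (pp B b.1 (p * d b.1 + 2) (B.D f * f ^ (p - 1) * tt b.1 ^ (p * b.2))),
    at' b.1 (mk fun i => if i + ee p d b < p then
      (((i + ee p d b).factorial : ℕ) : RatFunc k)⁻¹ * f ^ (i + ee p d b) * tt b.1 ^ (p * b.2)
      else 0))

/-- the Cartier operator on forms -/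
def carS (f : RatFunc k) (w : (RatFunc k)⟦X⟧) : (RatFunc k)⟦X⟧ :=
  mk fun i => B.car (coeff i (expo p (-f) * w))

/-- holomorphic forms -/
def hol (J : Finset (Option k)) (d : Option k → ℕ) (w : (RatFunc k)⟦X⟧) : Prop :=
  inA B J w ∧ ∀ j ∈ J, inW B d j w

end

/-- the Frobenius on coefficients -/
def fr (p : ℕ) (R : Type) [CommRing R] [Fact p.Prime] [CharP R p] : R⟦X⟧ →+* R⟦X⟧ :=
  PowerSeries.map (frobenius R p)

section

variable {p : ℕ} {k : Type} [Field k] [Fact p.Prime] [CharP k p] (B : Base p k)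
  (f : RatFunc k) (J : Finset (Option k)) (d : Option k → ℕ)

instance charRF : CharP (RatFunc k) p := charP_of_injective_algebraMap
  (algebraMap k (RatFunc k)).injective p

/-- `F (w, h) = (0, h ^ p)` -/
def FSpec (F : Hm B f J d →+ Hm B f J d) : Prop :=
  (∀ (s : k⟦X⟧) (m : Hm B f J d), F (s • m) = fr p k s • F m) ∧
  ∀ z : Zm B f J d, ∃ z' : Zm B f J d, z'.1.1 = 0 ∧
    (∀ j, z'.1.2 j = expo p f * fr p (RatFunc k) (z.1.2 j)) ∧
    F (Hm.cl B f J d z) = Hm.cl B f J d z'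

/-- `V (w, h) = (C w, 0)` -/
def VSpec (V : Hm B f J d →+ Hm B f J d) : Prop :=
  (∀ (s : k⟦X⟧) (m : Hm B f J d), V (fr p k s • m) = s • V m) ∧
  ∀ z : Zm B f J d, ∃ z' : Zm B f J d, z'.1.2 = 0 ∧ z'.1.1 = carS B f z.1.1 ∧
    V (Hm.cl B f J d z) = Hm.cl B f J d z'

end

/-- basis of a module over `k[λ] / λ ^ n` -/
def IsB (k : Type) [Field k] {M : Type} [AddCommGroup M] [Module (k⟦X⟧) M] (n : ℕ) {ι : Type}
    [Fintype ι] (v : ι → M) : Prop :=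
  (∀ m : M, ∃ s : ι → k⟦X⟧, m = ∑ i, s i • v i) ∧
    ∀ s : ι → k⟦X⟧, ∑ i, s i • v i = 0 ↔ ∀ i, (X : k⟦X⟧) ^ n ∣ s i

def S_FM : Prop := ∀ (p : ℕ) [Fact p.Prime] (k : Type) [Field k] [IsAlgClosed k] [CharP k p]
  (B : Base p k) (f : RatFunc k) (J : Finset (Option k)) (d : Option k → ℕ),
  PoleData B f J d → ∃ F : Hm B f J d →+ Hm B f J d, FSpec B f J d F

def S_VM : Prop := ∀ (p : ℕ) [Fact p.Prime] (k : Type) [Field k] [IsAlgClosed k] [CharP k p]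
  (B : Base p k) (f : RatFunc k) (J : Finset (Option k)) (d : Option k → ℕ),
  PoleData B f J d → ∃ V : Hm B f J d →+ Hm B f J d, VSpec B f J d V

def S_VZ : Prop := ∀ (p : ℕ) [Fact p.Prime] (k : Type) [Field k] [IsAlgClosed k] [CharP k p]
  (B : Base p k) (f : RatFunc k) (J : Finset (Option k)) (d : Option k → ℕ),
  PoleData B f J d → ∀ b ∈ IB J d, vb B f d b ∈ Zm B f J d

/-- `λ ^ (p - 1) = 0` on the basis -/
def S_KIL : Prop := ∀ (p : ℕ) [Fact p.Prime] (k : Type) [Field k] [IsAlgClosed k] [CharP k p]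
  (B : Base p k) (f : RatFunc k) (J : Finset (Option k)) (d : Option k → ℕ),
  PoleData B f J d → ∀ b ∈ IB J d, (X : k⟦X⟧) ^ (p - 1) • vb B f d b ∈ Bm B f J d

def S_IND : Prop := ∀ (p : ℕ) [Fact p.Prime] (k : Type) [Field k] [IsAlgClosed k] [CharP k p]
  (B : Base p k) (f : RatFunc k) (J : Finset (Option k)) (d : Option k → ℕ),
  PoleData B f J d → ∀ s : (Σ _ : Option k, ℕ) → k⟦X⟧,
    ∑ b ∈ IB J d, s b • vb B f d b ∈ Bm B f J d → ∀ b ∈ IB J d, (X : k⟦X⟧) ^ (p - 1) ∣ s b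

/-- holomorphic forms are combinations of the `λ ^ (p - 1 - e) v` -/
def S_HOL : Prop := ∀ (p : ℕ) [Fact p.Prime] (k : Type) [Field k] [IsAlgClosed k] [CharP k p]
  (B : Base p k) (f : RatFunc k) (J : Finset (Option k)) (d : Option k → ℕ),
  PoleData B f J d → ∀ w, hol B J d w → ∃ s : (Σ _ : Option k, ℕ) → k⟦X⟧,
    (w, 0) - ∑ b ∈ IB J d, (X ^ (p - 1 - ee p d b) * s b) • vb B f d b ∈ Bm B f J d

/-- every cocycle is a combination of the basis and a holomorphic form -/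
def S_SPAN : Prop := ∀ (p : ℕ) [Fact p.Prime] (k : Type) [Field k] [IsAlgClosed k] [CharP k p]
  (B : Base p k) (f : RatFunc k) (J : Finset (Option k)) (d : Option k → ℕ),
  PoleData B f J d → ∀ z ∈ Zm B f J d, ∃ (s : (Σ _ : Option k, ℕ) → k⟦X⟧) (w : _),
    hol B J d w ∧ z - (w, 0) - ∑ b ∈ IB J d, s b • vb B f d b ∈ Bm B f J d

/-- the case of `S_SPAN` which describes `s` modulo `λ` -/
def S_SPAN0 : Prop := ∀ (p : ℕ) [Fact p.Prime] (k : Type) [Field k] [IsAlgClosed k] [CharP k p]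
  (B : Base p k) (f : RatFunc k) (J : Finset (Option k)) (d : Option k → ℕ),
  PoleData B f J d → ∀ (j : Option k) (w h : (RatFunc k)⟦X⟧), j ∈ J →
    (w, at' j h) ∈ Zm B f J d →
    (∀ m : ℤ, m < 0 → (B.ex j (coeff 0 h)).coeff m = 0) →
    (j = none → (B.ex j (coeff 0 h)).coeff 0 = 0) →
    ∃ (s : (Σ _ : Option k, ℕ) → k⟦X⟧) (w' : _), hol B J d w' ∧
    (w, at' j h) - (w', 0) - ∑ b ∈ IB J d, s b • vb B f d b ∈ Bm B f J d ∧
    (∀ b ∈ IB J d, b.2 < d b.1 → b.1 ≠ j → constantCoeff (s b) = 0) ∧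
    ∀ b ∈ IB J d, b.2 < d b.1 → b.1 = j →
      constantCoeff (s b) = (B.ex j (coeff 0 h)).coeff (b.2 : ℤ)

def S_GZ : Prop := ∀ (p : ℕ) [Fact p.Prime] (k : Type) [Field k] [IsAlgClosed k] [CharP k p]
  (B : Base p k) (f : RatFunc k) (J : Finset (Option k)) (d : Option k → ℕ),
  PoleData B f J d → ∀ b ∈ IB J d, b.2 < d b.1 → gb B f d b ∈ Zm B f J d ∧
    (X : k⟦X⟧) ^ (ee p d b) • gb B f d b -
      (0, at' b.1 (expo p f * C (tt b.1 ^ (p * b.2)))) ∈ Bm B f J d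

def S_GV : Prop := ∀ (p : ℕ) [Fact p.Prime] (k : Type) [Field k] [IsAlgClosed k] [CharP k p]
  (B : Base p k) (f : RatFunc k) (J : Finset (Option k)) (d : Option k → ℕ),
  PoleData B f J d → ∀ b ∈ IB J d, b.2 < d b.1 → ∃ w, hol B J d w ∧
    (carS B f (gb B f d b).1, 0) + (X : k⟦X⟧) ^ (p - 1 - ee p d b) • vb B f d b -
      (X : k⟦X⟧) ^ (p - ee p d b) • (w, 0) ∈ Bm B f J d

def S_GD : Prop := ∀ (p : ℕ) [Fact p.Prime] (k : Type) [Field k] [IsAlgClosed k] [CharP k p]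
  (B : Base p k) (f : RatFunc k) (J : Finset (Option k)) (d : Option k → ℕ),
  PoleData B f J d → ∀ b ∈ IB J d, b.2 = d b.1 → ∃ w, hol B J d w ∧
    (carS B f (vb B f d b).1, 0) - vb B f d b - (X : k⟦X⟧) • (w, 0) ∈ Bm B f J d

/-- semilinear algebra -/
def S_SLM : Prop := ∀ (p : ℕ) [Fact p.Prime] (k : Type) [Field k] [IsAlgClosed k] [CharP k p]
  (M : Type) [AddCommGroup M] [Module (k⟦X⟧) M] (n : ℕ) (ι : Type) [Fintype ι] [DecidableEq ι]
  (v g : ι → M) (e : ι → ℕ) (U : ι → ι → k⟦X⟧) (F V : M →+ M),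
  IsB k n v → (∀ b, e b ≤ n) → (∀ (s : k⟦X⟧) (m : M), F (s • m) = fr p k s • F m) →
  (∀ (s : k⟦X⟧) (m : M), V (fr p k s • m) = s • V m) →
  (∀ b, F (v b) = (X : k⟦X⟧) ^ e b • g b) → (∀ b, V (g b) = -((X : k⟦X⟧) ^ (n - e b) • v b)) →
  (∀ b, g b = ∑ c, U c b • v c) → (∀ b c, e c ≤ e b → c ≠ b → constantCoeff (U c b) = 0) →
  (∀ b, constantCoeff (U b b) ≠ 0) →
  ∃ w : ι → M, IsB k n w ∧ (∀ b, F (w b) = (X : k⟦X⟧) ^ e b • w b) ∧
    ∀ b, V (w b) = -((X : k⟦X⟧) ^ (n - e b) • w b)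

/-- the main theorem on the model -/
def S_MT : Prop := ∀ (p : ℕ) [Fact p.Prime] (k : Type) [Field k] [IsAlgClosed k] [CharP k p]
  (B : Base p k) (f : RatFunc k) (J : Finset (Option k)) (d : Option k → ℕ),
  PoleData B f J d → ∀ F V : Hm B f J d →+ Hm B f J d, FSpec B f J d F → VSpec B f J d V →
  ∃ w : IB J d → Hm B f J d, IsB k (p - 1) w ∧
    (∀ b, F (w b) = (X : k⟦X⟧) ^ ee p d b.1 • w b) ∧
    ∀ b, V (w b) = -((X : k⟦X⟧) ^ (p - 1 - ee p d b.1) • w b)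

/-- comparison of two modules -/
def S_FIN : Prop := ∀ (p : ℕ) [Fact p.Prime] (k : Type) [Field k] [IsAlgClosed k] [CharP k p]
  (M M' : Type) [AddCommGroup M] [Module (k⟦X⟧) M] [AddCommGroup M'] [Module (k⟦X⟧) M']
  (n : ℕ) (ι ι' : Type) [Fintype ι] [Fintype ι'] (w : ι → M) (w' : ι' → M')
  (e : ι → ℕ) (e' : ι' → ℕ) (σ : ι ≃ ι') (F V : M →+ M) (F' V' : M' →+ M'),
  IsB k n w → IsB k n w' → (∀ b, e' (σ b) = e b) →
  (∀ (s : k⟦X⟧) (m : M), F (s • m) = fr p k s • F m) →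
  (∀ (s : k⟦X⟧) (m : M), V (fr p k s • m) = s • V m) →
  (∀ (s : k⟦X⟧) (m : M'), F' (s • m) = fr p k s • F' m) →
  (∀ (s : k⟦X⟧) (m : M'), V' (fr p k s • m) = s • V' m) →
  (∀ b, F (w b) = (X : k⟦X⟧) ^ e b • w b) → (∀ b, V (w b) = -((X : k⟦X⟧) ^ (n - e b) • w b)) →
  (∀ b, F' (w' b) = (X : k⟦X⟧) ^ e' b • w' b) →
  (∀ b, V' (w' b) = -((X : k⟦X⟧) ^ (n - e' b) • w' b)) →
  ∃ Φ : M ≃ₗ[k⟦X⟧] M', (∀ m, Φ (F m) = F' (Φ m)) ∧ ∀ m, Φ (V m) = V' (Φ m)

/-- the exponents only depend on the orders -/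
def S_COMB : Prop := ∀ (p : ℕ) (k : Type) (J J' : Finset (Option k))
  (d d' : Option k → ℕ), none ∈ J → none ∈ J' → (∀ j ∈ J, 1 ≤ d j ∧ d j ∣ p - 1) →
  (∀ j ∈ J', 1 ≤ d' j ∧ d' j ∣ p - 1) → J.val.map d = J'.val.map d' →
  ∃ σ : IB J d ≃ IB J' d', ∀ b, ee p d' (σ b).1 = ee p d b.1

/-! ### the curve -/

section

variable {p : ℕ} {k : Type} [Field k] (K : Type) [Field K] [Algebra k K]

/-- the function field `K` of the curve -/
structure KData (p : ℕ) (f : RatFunc k) (ι : RatFunc k →ₐ[k] K) (y : K) : Prop where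
  eq : y ^ p - y = ι f
  gen : IntermediateField.adjoin k {ι RatFunc.X, y} = ⊤

variable {K}

/-- `h ↦ ∑ h i y ^ (p - 1 - i) / (p - 1 - i)!` -/
def Psi (p : ℕ) (ι : RatFunc k →ₐ[k] K) (y : K) (h : (RatFunc k)⟦X⟧) : K :=
  ∑ i ∈ Finset.range p, ι (coeff i h) * y ^ (p - 1 - i) * (((p - 1 - i).factorial : ℕ) : K)⁻¹

/-- the point `P` lies over the point `j` of the projective line -/
def Over (ι : RatFunc k →ₐ[k] K) (P : Pt k K) (j : Option k) : Prop :=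
  ι (tt j) ∈ P.1 ∧ (ι (tt j))⁻¹ ∉ P.1

end

def S_T0 : Prop := ∀ (p : ℕ) [Fact p.Prime] (k : Type) [Field k] [IsAlgClosed k] [CharP k p]
  (K : Type) [Field K] [Algebra k K] (f : RatFunc k), IsArtinSchreier k K p f →
  ∃ (ι : RatFunc k →ₐ[k] K) (y : K), KData K p f ι y

def S_T1 : Prop := ∀ (p : ℕ) [Fact p.Prime] (k : Type) [Field k] [IsAlgClosed k] [CharP k p]
  (K : Type) [Field K] [Algebra k K] (f : RatFunc k) (ι : RatFunc k →ₐ[k] K) (y : K),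
  KData K p f ι y → ∀ P : Pt k K, ∃! j, Over ι P j

def S_T2 : Prop := ∀ (k : Type) [Field k] [IsAlgClosed k] (K : Type) [Field K] [Algebra k K]
  (ι : RatFunc k →ₐ[k] K) (j : Option k), ∃ P : Pt k K, Over ι P j

def S_T3 : Prop := ∀ (p : ℕ) (k : Type) [Field k] [IsAlgClosed k] (B : Base p k)
  (K : Type) [Field K] [Algebra k K] (ι : RatFunc k →ₐ[k] K) (P : Pt k K) (j : Option k),
  Over ι P j → ∀ φ : RatFunc k, ι φ ∈ P.1 ↔ ∀ m : ℤ, m < 0 → (B.ex j φ).coeff m = 0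

def S_T4 : Prop := ∀ (p : ℕ) [Fact p.Prime] (k : Type) [Field k] [IsAlgClosed k] [CharP k p]
  (B : Base p k) (f : RatFunc k) (J : Finset (Option k)) (d : Option k → ℕ),
  PoleData B f J d → ∀ (K : Type) [Field K] [Algebra k K] (ι : RatFunc k →ₐ[k] K) (y : K),
  KData K p f ι y → ∀ (P : Pt k K) (j : Option k), j ∈ J → Over ι P j →
    ∀ h : (RatFunc k)⟦X⟧, Psi p ι y h ∈ P.1 ↔ inO B d j h

def S_T5 : Prop := ∀ (p : ℕ) [Fact p.Prime] (k : Type) [Field k] [IsAlgClosed k] [CharP k p]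
  (B : Base p k) (f : RatFunc k) (J : Finset (Option k)) (d : Option k → ℕ),
  PoleData B f J d → ∀ (K : Type) [Field K] [Algebra k K] (ι : RatFunc k →ₐ[k] K) (y : K),
  KData K p f ι y → (∀ g : K, ∃ h, Psi p ι y h = g) ∧
    ∀ h, Psi p ι y h = 0 ↔ ∀ i < p, coeff i h = 0

def S_T6 : Prop := ∀ (p : ℕ) [Fact p.Prime] (k : Type) [Field k] [IsAlgClosed k] [CharP k p]
  (B : Base p k) (f : RatFunc k) (K : Type) [Field K] [Algebra k K] (ι : RatFunc k →ₐ[k] K)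
  (y : K), KData K p f ι y →
  (∀ h, KaehlerDifferential.D k K (Psi p ι y h) =
    Psi p ι y (nab B f h) • KaehlerDifferential.D k K (ι RatFunc.X)) ∧
  (∀ g : K, g • KaehlerDifferential.D k K (ι RatFunc.X) = 0 → g = 0) ∧
  ∀ ω : Ω[K⁄k], ∃ g : K, ω = g • KaehlerDifferential.D k K (ι RatFunc.X)

def S_T7 : Prop := ∀ (p : ℕ) [Fact p.Prime] (k : Type) [Field k] [IsAlgClosed k] [CharP k p]
  (B : Base p k) (f : RatFunc k) (J : Finset (Option k)) (d : Option k → ℕ),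
  PoleData B f J d → ∀ (K : Type) [Field K] [Algebra k K] (ι : RatFunc k →ₐ[k] K) (y : K),
  KData K p f ι y → ∀ (P : Pt k K) (j : Option k), j ∈ J → Over ι P j →
    ∀ w : (RatFunc k)⟦X⟧,
      Psi p ι y w • KaehlerDifferential.D k K (ι RatFunc.X) ∈ Reg k K P.1 ↔ inW B d j w

/-- elements of the ring `O_j[y]` -/
def inR {p : ℕ} {k : Type} [Field k] {K : Type} [Field K] [Algebra k K] (B : Base p k)
    (ι : RatFunc k →ₐ[k] K) (y : K) (j : Option k) (b : K) : Prop :=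
  ∃ φ : ℕ → RatFunc k, (∀ r, ∀ m : ℤ, m < 0 → (B.ex j (φ r)).coeff m = 0) ∧
    b = ∑ r ∈ Finset.range p, ι (φ r) * y ^ r

/-- the local rings outside the poles -/
def S_LOC : Prop := ∀ (p : ℕ) [Fact p.Prime] (k : Type) [Field k] [IsAlgClosed k] [CharP k p]
  (B : Base p k) (f : RatFunc k) (J : Finset (Option k)) (d : Option k → ℕ),
  PoleData B f J d → ∀ (K : Type) [Field K] [Algebra k K] (ι : RatFunc k →ₐ[k] K) (y : K),
  KData K p f ι y → ∀ (P : Pt k K) (j : Option k), j ∉ J → Over ι P j →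
    ∃ β : k, β ^ p - β = (B.ex j f).coeff 0 ∧ y - algebraMap k K β ∈ P.1 ∧
      (y - algebraMap k K β)⁻¹ ∉ P.1 ∧
      (∀ u ∈ P.1, ∃ b1 b2 : K, inR B ι y j b1 ∧ inR B ι y j b2 ∧ b2 ≠ 0 ∧ b2⁻¹ ∈ P.1 ∧
        u = b1 / b2) ∧
      ∀ P' : Pt k K, Over ι P' j → y - algebraMap k K β ∈ P'.1 →
        (y - algebraMap k K β)⁻¹ ∉ P'.1 → P' = P

def S_T8 : Prop := ∀ (p : ℕ) [Fact p.Prime] (k : Type) [Field k] [IsAlgClosed k] [CharP k p]
  (B : Base p k) (f : RatFunc k) (J : Finset (Option k)) (d : Option k → ℕ),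
  PoleData B f J d → ∀ (K : Type) [Field K] [Algebra k K] (ι : RatFunc k →ₐ[k] K) (y : K),
  KData K p f ι y → ∀ (P : Pt k K) (j : Option k), j ∉ J → Over ι P j →
    (∀ u ∈ P.1, ∃ c : k, ∃ u' ∈ P.1, u = algebraMap k K c + ι (tt j) * u') ∧
    (∀ u : K, ∃ n : ℕ, ι (tt j) ^ n * u ∈ P.1) ∧
    ∀ g : K, g • KaehlerDifferential.D k K (ι RatFunc.X) ∈ Reg k K P.1 ↔ g ∈ P.1

def S_T9 : Prop := ∀ (p : ℕ) [Fact p.Prime] (k : Type) [Field k] [IsAlgClosed k] [CharP k p]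
  (B : Base p k) (f : RatFunc k) (J : Finset (Option k)) (d : Option k → ℕ),
  PoleData B f J d → ∀ (K : Type) [Field K] [Algebra k K] (ι : RatFunc k →ₐ[k] K) (y : K),
  KData K p f ι y → ∀ g : (RatFunc k)⟦X⟧,
    (∀ (P : Pt k K) (j : Option k), j ∉ J → Over ι P j → Psi p ι y g ∈ P.1) ↔ inA B J g

def S_T10 : Prop := ∀ (p : ℕ) [Fact p.Prime] (k : Type) [Field k] [IsAlgClosed k] [CharP k p]
  (B : Base p k) (f : RatFunc k) (J : Finset (Option k)) (d : Option k → ℕ),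
  PoleData B f J d → ∀ (K : Type) [Field K] [Algebra k K] (ι : RatFunc k →ₐ[k] K) (y : K),
  KData K p f ι y → ∀ h : Pt k K → K, {P | h P ∉ P.1}.Finite →
    ∃ g : K, ∀ (P : Pt k K) (j : Option k), j ∉ J → Over ι P j → h P - g ∈ P.1

def S_T11 : Prop := ∀ (p : ℕ) [Fact p.Prime] (k : Type) [Field k] [IsAlgClosed k] [CharP k p]
  (f : RatFunc k) (K : Type) [Field K] [Algebra k K] (ι : RatFunc k →ₐ[k] K)
  (y : K), KData K p f ι y → ∀ h : (RatFunc k)⟦X⟧,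
    Psi p ι y h ^ p = Psi p ι y (expo p f * fr p (RatFunc k) h)

def S_T12 : Prop := ∀ (p : ℕ) [Fact p.Prime] (k : Type) [Field k] [IsAlgClosed k] [CharP k p]
  (B : Base p k) (f : RatFunc k) (J : Finset (Option k)) (d : Option k → ℕ),
  PoleData B f J d → ∀ (K : Type) [Field K] [Algebra k K] (ι : RatFunc k →ₐ[k] K) (y : K),
  KData K p f ι y → ∀ (w : (RatFunc k)⟦X⟧) (η : Ω[K⁄k]),
    IsCartier k K p (Psi p ι y w • KaehlerDifferential.D k K (ι RatFunc.X)) η ↔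
      η = Psi p ι y (carS B f w) • KaehlerDifferential.D k K (ι RatFunc.X)

/-- the model is `H¹_dR` -/
def S_TR : Prop := ∀ (p : ℕ) [Fact p.Prime] (k : Type) [Field k] [IsAlgClosed k] [CharP k p]
  (B : Base p k) (f : RatFunc k) (J : Finset (Option k)) (d : Option k → ℕ),
  PoleData B f J d → ∀ (K : Type) [Field K] [Algebra k K] (ι : RatFunc k →ₐ[k] K) (y : K),
  KData K p f ι y → ∀ F V : Hm B f J d →+ Hm B f J d, FSpec B f J d F → VSpec B f J d V →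
  ∃ Θ : Hm B f J d ≃ₗ[k] HdR k K, (∀ v w, IsF k K p (Θ v) (Θ w) ↔ w = F v) ∧
    ∀ v w, IsV k K p (Θ v) (Θ w) ↔ w = V v

/-! ### reduction and final steps -/

/-- the poles of `f` -/
def S_RED1 : Prop := ∀ (p : ℕ) (k : Type) [Field k] [DecidableEq k] [IsAlgClosed k] (B : Base p k)
  (f : RatFunc k), ∃ (J : Finset (Option k)) (d : Option k → ℕ),
  J.val.map d = poleOrders f ∧ (none ∈ J ↔ f.denom.natDegree < f.num.natDegree) ∧
  (∀ j ∈ J, 1 ≤ d j ∧ (B.ex j f).coeff (-(d j : ℤ)) ≠ 0 ∧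
    ∀ m : ℤ, m < -(d j : ℤ) → (B.ex j f).coeff m = 0) ∧
  ∀ j, j ∉ J → ∀ m : ℤ, m < 0 → (B.ex j f).coeff m = 0

/-- moving a pole to infinity -/
def S_RED2 : Prop := ∀ (p : ℕ) (k : Type) [Field k] [DecidableEq k] [IsAlgClosed k]
  (K : Type) [Field K] [Algebra k K] (f : RatFunc k), IsArtinSchreier k K p f →
  poleOrders f ≠ 0 → ¬ (f.denom.natDegree < f.num.natDegree) →
  ∃ f1 : RatFunc k, IsArtinSchreier k K p f1 ∧ poleOrders f1 = poleOrders f ∧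
    f1.denom.natDegree < f1.num.natDegree

/-- the elementary sequences -/
def S_EP : Prop := ∀ (p : ℕ) (k : Type) [Field k] (K K' : Type) [Field K] [Field K']
  [Algebra k K] [Algebra k K'] (Φ : HdR k K ≃ₗ[k] HdR k K'),
  (∀ v w, IsF k K p v w ↔ IsF k K' p (Φ v) (Φ w)) →
  (∀ v w, IsV k K p v w ↔ IsV k K' p (Φ v) (Φ w)) → elementaryPairs k K p = elementaryPairs k K' p

end

end Pool.Agent.Helper61.EO
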