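import Pool.Agent.Helper61.EO.Fin
import Pool.Agent.Helper61.EO.Curve

/-!
Project EO: transfer to the definitions of the file `Curve`.
-/

set_option autoImplicit false

namespace Pool.Agent.Helper61.EO.Curve

open KaehlerDifferential

noncomputable section

section

variable (k K : Type) [Field k] [Field K] [Algebra k K]

/-- the comparison -/
def cmp : HdR k K ≃ₗ[k] H1dR k K := LinearEquiv.refl k (HdR k K)

variable {k K}

theorem isF_iff (p : ℕ) (v w : HdR k K) :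
    IsF p (cmp k K v) (cmp k K w) ↔ EO.IsF k K p v w := by
  constructor
  · rintro ⟨z, z', hz, hz', h1, h2, h3, h4⟩
    exact ⟨⟨z, hz⟩, ⟨z', hz'⟩, h1, h2, h3, h4⟩
  · rintro ⟨z, z', h1, h2, h3, h4⟩
    exact ⟨z.1, z'.1, z.2, z'.2, h1, h2, h3, h4⟩

theorem isCartier_iff (p : ℕ) (ω η : Ω[K⁄k]) : IsCartier p ω η ↔ EO.IsCartier k K p ω η := Iff.rfl

theorem isV_iff (p : ℕ) (v w : HdR k K) :
    IsV p (cmp k K v) (cmp k K w) ↔ EO.IsV k K p v w := by
  constructor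
  · rintro ⟨z, z', hz, hz', h1, h2, h3, h4⟩
    exact ⟨⟨z, hz⟩, ⟨z', hz'⟩, h1, h2, funext h3, h4⟩
  · rintro ⟨z, z', h1, h2, h3, h4⟩
    exact ⟨z.1, z'.1, z.2, z'.2, h1, h2, fun P => congrFun h3 P, h4⟩

end

namespace EP

variable {p : ℕ} {k : Type} [Field k] {K K' : Type} [Field K] [Field K'] [Algebra k K]
  [Algebra k K']

theorem imV_map (Φ : H1dR k K ≃ₗ[k] H1dR k K')
    (hV : ∀ v w, IsV p v w ↔ IsV p (Φ v) (Φ w)) (W : Submodule k (H1dR k K)) :
    imV p (W.map Φ.toLinearMap) = (imV p W).map Φ.toLinearMap := by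
  unfold imV
  rw [Submodule.map_span]
  congr 1
  ext w
  constructor
  · rintro ⟨v, ⟨v0, hv0, rfl⟩, h⟩
    refine ⟨Φ.symm w, ⟨v0, hv0, ?_⟩, by simp⟩
    rw [hV]
    simpa using h
  · rintro ⟨w0, ⟨v, hv, h⟩, rfl⟩
    exact ⟨Φ v, ⟨v, hv, rfl⟩, (hV _ _).1 h⟩

theorem preF_map (Φ : H1dR k K ≃ₗ[k] H1dR k K')
    (hF : ∀ v w, IsF p v w ↔ IsF p (Φ v) (Φ w)) (W : Submodule k (H1dR k K)) :
    preF p (W.map Φ.toLinearMap) = (preF p W).map Φ.toLinearMap := by
  unfold preF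
  rw [Submodule.map_span]
  congr 1
  ext v
  constructor
  · rintro ⟨w, ⟨w0, hw0, rfl⟩, h⟩
    refine ⟨Φ.symm v, ⟨w0, hw0, ?_⟩, by simp⟩
    rw [hF]
    simpa using h
  · rintro ⟨v0, ⟨w, hw, h⟩, rfl⟩
    exact ⟨Φ w, ⟨w, hw, rfl⟩, (hF _ _).1 h⟩

theorem canonical_map (Φ : H1dR k K ≃ₗ[k] H1dR k K') (h : IsDieudonneIso p Φ)
    {W : Submodule k (H1dR k K)} (hW : Canonical p W) : Canonical p (W.map Φ.toLinearMap) := by
  induction hW with
  | bot =>
    rw [Submodule.map_bot]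
    exact Canonical.bot
  | top =>
    rw [Submodule.map_top, LinearMap.range_eq_top.2 Φ.surjective]
    exact Canonical.top
  | im _ ih =>
    rw [← imV_map Φ h.2]
    exact Canonical.im ih
  | pre _ ih =>
    rw [← preF_map Φ h.1]
    exact Canonical.pre ih

theorem le (Φ : H1dR k K ≃ₗ[k] H1dR k K') (h : IsDieudonneIso p Φ) :
    elementaryPairs k K p ⊆ elementaryPairs k K' p := by
  rintro x ⟨W, hW, h1, h2⟩
  refine ⟨W.map Φ.toLinearMap, canonical_map Φ h hW, ?_, ?_⟩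
  · rw [← h1]
    exact LinearEquiv.finrank_map_eq Φ W
  · rw [imV_map Φ h.2, ← h2]
    exact LinearEquiv.finrank_map_eq Φ _

theorem symm (Φ : H1dR k K ≃ₗ[k] H1dR k K') (h : IsDieudonneIso p Φ) :
    IsDieudonneIso p Φ.symm := by
  refine ⟨fun v w => ?_, fun v w => ?_⟩
  · rw [h.1]
    simp
  · rw [h.2]
    simp

end EP

theorem main (p : ℕ) (hp : p.Prime) (k : Type) [Field k] [DecidableEq k] [IsAlgClosed k]
    [CharP k p] (K K' : Type) [Field K] [Field K'] [Algebra k K] [Algebra k K']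
    (f f' : RatFunc k) (hK : IsArtinSchreier k K p f) (hK' : IsArtinSchreier k K' p f')
    (h0 : poleOrders f ≠ 0) (hd : ∀ d ∈ poleOrders f, d ∣ p - 1)
    (hff' : poleOrders f' = poleOrders f) :
    (∃ Φ : H1dR k K ≃ₗ[k] H1dR k K', IsDieudonneIso p Φ) ∧
    elementaryPairs k K p = elementaryPairs k K' p ∧
    (∀ v : H1dR k K, ∃! w, IsF p v w) ∧ (∀ v : H1dR k K, ∃! w, IsV p v w) ∧
    Module.Finite k (H1dR k K) ∧
    Module.finrank k (H1dR k K) = (p - 1) * (((poleOrders f).map fun d => d + 1).sum - 2) := by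
  obtain ⟨⟨Φ, hF, hV⟩, -⟩ := all_MAIN' p hp k K K' f f' hK hK' h0 hd hff'
  obtain ⟨h1, h2, h3, h4⟩ := all_INV p hp k K f hK h0 hd
  have hΨ : IsDieudonneIso p (((cmp k K).symm.trans Φ).trans (cmp k K')) := by
    refine ⟨fun v w => ?_, fun v w => ?_⟩
    · obtain ⟨v, rfl⟩ := (cmp k K).surjective v
      obtain ⟨w, rfl⟩ := (cmp k K).surjective w
      simp only [LinearEquiv.trans_apply, LinearEquiv.symm_apply_apply]
      rw [isF_iff, isF_iff]
      exact hF v w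
    · obtain ⟨v, rfl⟩ := (cmp k K).surjective v
      obtain ⟨w, rfl⟩ := (cmp k K).surjective w
      simp only [LinearEquiv.trans_apply, LinearEquiv.symm_apply_apply]
      rw [isV_iff, isV_iff]
      exact hV v w
  refine ⟨⟨_, hΨ⟩, Set.Subset.antisymm (EP.le _ hΨ) (EP.le _ (EP.symm _ hΨ)), fun v => ?_,
    fun v => ?_, Module.Finite.equiv (cmp k K), ?_⟩
  · obtain ⟨v, rfl⟩ := (cmp k K).surjective v
    obtain ⟨w, hw, hu⟩ := h1 v
    refine ⟨cmp k K w, (isF_iff p v w).2 hw, fun u hu' => ?_⟩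
    obtain ⟨u, rfl⟩ := (cmp k K).surjective u
    rw [hu u ((isF_iff p v u).1 hu')]
  · obtain ⟨v, rfl⟩ := (cmp k K).surjective v
    obtain ⟨w, hw, hu⟩ := h2 v
    refine ⟨cmp k K w, (isV_iff p v w).2 hw, fun u hu' => ?_⟩
    obtain ⟨u, rfl⟩ := (cmp k K).surjective u
    rw [hu u ((isV_iff p v u).1 hu')]
  · rw [← (cmp k K).finrank_eq]
    exact h4

end

end Pool.Agent.Helper61.EO.Curve
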